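import Pool.Agent.X144.MT.StarFin

/-!
# MP_7863f5_co, Q1: the monotone triangle polynomial at a duplicated even row

`α(n; 2, 4, …, 2n) = α(2n; 2n, 2n, 2n-2, 2n-2, …, 2, 2)` for all `n ≥ 1`.
-/

namespace Pool.Agent.Results.MP_7863f5_co.DuplicatedEvenRow

open MvPolynomial Pool.Agent.X144.MT Pool.Agent.X144.MTStar

/-- **Main result.**  For every `n ≥ 1` there is exactly one polynomial in `n` variables that counts
the monotone triangles with a given strictly increasing bottom row; and for all `n ≥ 1` the value at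
`2, 4, …, 2n` of the one in `n` variables is the value at `2n, 2n, 2n-2, 2n-2, …, 2, 2` of the one in
`2n` variables. -/
theorem result :
    (∀ n : ℕ, 1 ≤ n → ∃! P : MvPolynomial (Fin n) ℚ, IsAlpha P) ∧
    ∀ n : ℕ, 1 ≤ n → ∀ (P : MvPolynomial (Fin n) ℚ) (Q : MvPolynomial (Fin (2 * n)) ℚ),
      IsAlpha P → IsAlpha Q →
        eval (fun t : Fin n => (evenRow t : ℚ)) P
          = eval (fun t : Fin (2 * n) => (dupRow n t : ℚ)) Q := by
  refine ⟨fun n hn => ?_, fun n hn P Q hP hQ => (eval_dupRow n hn P Q hP hQ).symm⟩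
  obtain ⟨m, rfl⟩ : ∃ m, n = m + 1 := ⟨n - 1, by omega⟩
  exact existsUnique_alpha m

end Pool.Agent.Results.MP_7863f5_co.DuplicatedEvenRow
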